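import Pool.Agent.Helper95.Lin.GoalsJ

open Complex Metric Set Filter Topology MeasureTheory
open scoped ContDiff ComplexConjugate ComplexOrder Manifold

namespace Pool.Agent.Helper11.Lin

open Pool.Agent.Helper16.Abund Pool.Agent.Helper92.Orb Pool.Agent.Helper95.Lin

universe u

theorem lc {b : ℕ} {D : Set (Cn b)} (hD : IsOpen D) : LocallyCompactSpace (TorTube hD 1) :=
  (tube D hD 1).isOpen.locallyCompactSpace

/-- Packet DKCO. -/
theorem dkco : S_DKCO.{u} := by
  intro b D hD X _ _ P hsurj hP hgal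
  have := lc hD
  choose y hy using hsurj
  have hn : ∀ x : X, ∃ C : Set (TorTube hD 1), IsCompact C ∧ C ∈ 𝓝 (y x) := fun x =>
    exists_compact_mem_nhds (y x)
  choose C hC hCn using hn
  have hopen : IsOpenMap P := hP.isLocalHomeomorph.isOpenMap
  have hnh : ∀ x : X, P '' C x ∈ 𝓝 x := by
    intro x
    have := hopen.image_mem_nhds (hCn x)
    rwa [hy x] at this
  obtain ⟨t, ht⟩ := (isCompact_univ (X := X)).elim_nhds_subcover (fun x => P '' C x)
    (fun x _ => hnh x)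
  refine ⟨⋃ x ∈ t, C x, t.isCompact_biUnion fun x _ => hC x, fun v => ?_⟩
  have hv : P v ∈ ⋃ x ∈ t, P '' C x := ht.2 (mem_univ _)
  simp only [mem_iUnion] at hv
  obtain ⟨x, hx, k, hk, hkv⟩ := hv
  obtain ⟨h, h1, h2⟩ := hgal v k hkv.symm
  refine ⟨⟨h, h1⟩, ?_⟩
  simp only [mem_iUnion]
  refine ⟨x, hx, ?_⟩
  change h v ∈ C x
  rw [h2]
  exact hk

end Pool.Agent.Helper11.Lin
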