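import Pool.Agent.Helper95.Lin.GoalsJ

open Complex Metric Set Filter Topology MeasureTheory
open scoped ContDiff ComplexConjugate ComplexOrder Manifold

namespace Pool.Agent.Helper11.Lin

open Pool.Agent.Helper16.Abund Pool.Agent.Helper92.Orb Pool.Agent.Helper95.Lin

universe u

/-- Packet DKHOL. -/
theorem dkhol : S_DKHOL.{u} := by
  intro b D hD X _ _ _ P hP h hh y
  have hloc := hP.2.2 (h y)
  have hPm : MDifferentiable 𝓘(ℂ, Fin (b + 1) → ℂ) 𝓘(ℂ, Fin (b + 1) → ℂ) P :=
    hP.2.2.contMDiff.mdifferentiable (by simp)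
  have hsrc := hloc.localInverse_mem_source
  have hsm : MDifferentiableAt 𝓘(ℂ, Fin (b + 1) → ℂ) 𝓘(ℂ, Fin (b + 1) → ℂ)
      hloc.localInverse (P (h y)) :=
    ((hloc.contmdiffOn_localInverse).contMDiffAt
      (hloc.localInverse_open_source.mem_nhds hsrc)).mdifferentiableAt (by simp)
  have h1 : MDifferentiableAt 𝓘(ℂ, Fin (b + 1) → ℂ) 𝓘(ℂ, Fin (b + 1) → ℂ)
      (hloc.localInverse ∘ P) y := by
    have h2 : MDifferentiableAt 𝓘(ℂ, Fin (b + 1) → ℂ) 𝓘(ℂ, Fin (b + 1) → ℂ)
      hloc.localInverse (P y) := by rw [← hh y]; exact hsm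
    exact h2.comp y (hPm y)
  refine h1.congr_of_eventuallyEq ?_
  have htgt : ∀ᶠ v in 𝓝 y, h v ∈ hloc.localInverse.target :=
    h.continuous.continuousAt.eventually
      (hloc.localInverse.open_target.mem_nhds hloc.localInverse_mem_target)
  filter_upwards [htgt] with v hv
  change h v = hloc.localInverse (P v)
  rw [← hh v, hloc.localInverse_left_inv hv]

end Pool.Agent.Helper11.Lin
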